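import Pool.Agent.H23.QCF.Lib

/-!
# KPFIN: the set of places with symbol -1 is finite
-/

set_option autoImplicit false

open NumberField IsDedekindDomain Pool.Agent.H23.QCF
open Pool.Agent.H32.QC (Sol hil Iso FPl Pl ic hs sqAt HasseConic ProdFormula Prescribed)

namespace Pool.Agent.H36.QCF

theorem PP_sub (hune : T_UNE) (K : Type) [Field K] [NumberField K] (a b : K)
    (S : Set (FPl K)) (h2 : ∀ v, v ∉ S → v.valuation K 2 = 1)
    (ha : ∀ v, v ∉ S → v.valuation K a = 1) (hb : ∀ v, v ∉ S → v.valuation K b = 1) :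
    PP a b ⊆ Sp S := by
  intro p hp v hv
  subst hv
  by_contra hS
  have h1 : hs (.inl v) a b = 1 :=
    hune K v a b 0 0 (h2 v hS) (by rw [ha v hS, WithZero.exp_zero])
      (by rw [hb v hS, WithZero.exp_zero]) (by decide) (by decide)
  have h3 : hs (.inl v) a b = -1 := hp
  rw [h1] at h3
  norm_num at h3

theorem pf_PFIN (hune : T_UNE) (hsq : T_HSQ) : T_PFIN := by
  intro K _ _ a b ha hb
  refine ⟨?_, ?_, PP_sub hune K a b⟩
  · have hfin : (({v : FPl K | v.valuation K (2 : K) ≠ 1} ∪ {v : FPl K | v.valuation K a ≠ 1}) ∪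
        {v : FPl K | v.valuation K b ≠ 1}).Finite :=
      ((supp_fin (two_ne_zero)).union (supp_fin ha)).union (supp_fin hb)
    refine (Sp_fin hfin).subset (PP_sub hune K a b _ ?_ ?_ ?_)
    · intro v hv
      by_contra h
      exact hv (Or.inl (Or.inl h))
    · intro v hv
      by_contra h
      exact hv (Or.inl (Or.inr h))
    · intro v hv
      by_contra h
      exact hv (Or.inr h)
  · intro p hp hs'
    have h1 := hsq K p a b hs'
    have h3 : hs p a b = -1 := hp
    rw [h1] at h3
    norm_num at h3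

end Pool.Agent.H36.QCF
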